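import Pool.Agent.Y490.WH.Final

/-!
# The weak Hopf conjecture of Gromoll and Tapp fails on `S² × ℝ³` (MP_55c470_gt, Q1: disproved)

Let `Q_x(L, M)` be the quadratic form
`|L|² + |M|² + |L + M|² + 2 μ (L + M)₁ (L + M)₃ + 2 ε ⟨L, v⟩ ⟨M, x⟩ + (ε² / (128 μ²)) (3 L₁² - L₃²)`,
`v = (1, 1, 0)`, `μ` and then `ε` small (starting library: on products of spheres it is a cometric of
positive sectional curvature).  On `S² × ℝ³` take the metric whose cometric is
`Q_x(x × p, w × b) + |b|²` for a covector `(p, b)` at `(x, w)`.  Geometrically it is the quotient of
`(S² × SO(3)) × ℝ³` by `SO(3)`.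

* Curvature: four times the curvature expression of the new cometric is the (nonnegative) curvature
  polynomial `PP` of `Q` at a shifted vertical argument plus three times a square.
* The tube of radius `r` is `S² × S²` with cometric `Q_x(L, M) + |M|² / r²`; a Cheeger deformation
  identity for `PP` shows that its curvature is positive.
* `|w|` is the distance to `S² × {0}`; the Hessian of `|w|²` is nonnegative, so `S² × {0}` is totally
  convex.
-/

open Manifold ContDiff

open Pool.Agent.Y490.WH in
/-- There is a smooth Riemannian metric `g` on `S² × ℝ³` which is complete, has nonnegative sectional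
curvature and soul `Σ = S² × {0}`, such that for EVERY `r > 0` the distance sphere `Σ_r` is the smooth
hypersurface `{(x, w) : |w| = r}`, parametrized by the embedding `(x, y) ↦ (x, r y)` of `S² × S²`, and
the metric induced on it by `g` has strictly positive sectional curvature.  So the assertion of Q1
(the weak Hopf conjecture) fails. -/
theorem Pool.Agent.Results.MP_55c470_gt.WeakHopfFails.result :
    (∃ g : MetricSnRk 2 3, ZeroSectionSoul 2 3 g ∧ AllTubesPositive 2 2 g) ∧
      ¬ WeakHopfConjecture :=
  main
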